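import Pool.Agent.H6.N4D.TA

/-!
# High frequencies are seen by the small shifts
-/

set_option autoImplicit false

open Finset Pool.Agent.H6.N4D

namespace Pool.Agent.H95.N4D

theorem sum_cos_tel (ξ : ℝ) (V : ℕ) :
    2 * Real.sin (Real.pi * ξ) * ∑ w ∈ Icc 1 V, Real.cos (2 * Real.pi * ξ * w) =
      Real.sin (Real.pi * ξ * (2 * V + 1)) - Real.sin (Real.pi * ξ) := by
  induction V with
  | zero => simp
  | succ n ih =>
    rw [Finset.sum_Icc_succ_top (by omega), mul_add, ih]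
    have h1 : Real.sin (Real.pi * ξ * (2 * ((n + 1 : ℕ) : ℝ) + 1)) =
        Real.sin (2 * Real.pi * ξ * ((n + 1 : ℕ) : ℝ) + Real.pi * ξ) := by
      congr 1; ring
    have h2 : Real.sin (Real.pi * ξ * (2 * (n : ℝ) + 1)) =
        Real.sin (2 * Real.pi * ξ * ((n + 1 : ℕ) : ℝ) - Real.pi * ξ) := by
      congr 1; push_cast; ring
    rw [h1, h2, Real.sin_add, Real.sin_sub]
    ring

theorem pf_AVG : T_AVG := by
  intro V ξ hV hξ hVξ
  have hV0 : (0 : ℝ) < V := by exact_mod_cast hV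
  have hpi := Real.pi_pos
  have hax : 0 < |ξ| := by
    by_contra h
    have : |ξ| = 0 := le_antisymm (not_lt.1 h) (abs_nonneg _)
    rw [this] at hVξ
    linarith
  -- the lower bound for the sine
  have hs : 2 * |ξ| ≤ |Real.sin (Real.pi * ξ)| := by
    have h1 : |Real.sin (Real.pi * ξ)| = |Real.sin (Real.pi * |ξ|)| := by
      rcases abs_cases ξ with ⟨h, _⟩ | ⟨h, _⟩
      · rw [h]
      · rw [h, mul_neg, Real.sin_neg, abs_neg]
    rw [h1]
    have h2 : 2 / Real.pi * (Real.pi * |ξ|) ≤ Real.sin (Real.pi * |ξ|) :=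
      Real.mul_le_sin (by positivity) (by nlinarith)
    have h3 : 2 / Real.pi * (Real.pi * |ξ|) = 2 * |ξ| := by
      field_simp
    rw [h3] at h2
    exact h2.trans (le_abs_self _)
  have hs0 : 0 < |Real.sin (Real.pi * ξ)| := by linarith
  set T := ∑ w ∈ Icc 1 V, Real.cos (2 * Real.pi * ξ * w) with hT
  have htel := sum_cos_tel ξ V
  rw [← hT] at htel
  -- sin(a) - sin(b) = 2 sin((a-b)/2) cos((a+b)/2)
  have hprod : Real.sin (Real.pi * ξ * (2 * V + 1)) - Real.sin (Real.pi * ξ) =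
      2 * (Real.sin (Real.pi * ξ * V) * Real.cos (Real.pi * ξ * (V + 1))) := by
    rw [Real.sin_sub_sin]
    have e1 : (Real.pi * ξ * (2 * V + 1) - Real.pi * ξ) / 2 = Real.pi * ξ * V := by ring
    have e2 : (Real.pi * ξ * (2 * V + 1) + Real.pi * ξ) / 2 = Real.pi * ξ * (V + 1) := by ring
    rw [e1, e2]; ring
  have habs : |Real.sin (Real.pi * ξ)| * |T| ≤ 1 := by
    have h1 : Real.sin (Real.pi * ξ) * T =
        Real.sin (Real.pi * ξ * V) * Real.cos (Real.pi * ξ * (V + 1)) := by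
      rw [hprod] at htel
      linarith
    rw [← abs_mul, h1, abs_mul]
    exact mul_le_one₀ (Real.abs_sin_le_one _) (abs_nonneg _) (Real.abs_cos_le_one _)
  have hTV : |T| ≤ V / 2 := by
    have h1 : 2 * |ξ| * |T| ≤ 1 :=
      (mul_le_mul_of_nonneg_right hs (abs_nonneg _)).trans habs
    have h2 : |T| ≤ V * (|ξ| * |T|) := by
      have := mul_le_mul_of_nonneg_right hVξ (abs_nonneg T)
      linarith
    nlinarith [abs_nonneg T]
  have hsum : ∑ w ∈ Icc 1 V, (1 - Real.cos (2 * Real.pi * ξ * w)) = V - T := by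
    rw [Finset.sum_sub_distrib, ← hT]
    simp
  rw [hsum, div_mul_eq_mul_div, one_mul, le_div_iff₀ hV0]
  have := (abs_le.1 hTV).2
  linarith

end Pool.Agent.H95.N4D
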