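import Pool.Agent.H6.N4D.TC

/-!
# The sign of the cosine is a parity
-/

set_option autoImplicit false

open Finset Pool.Agent.H6.N4D

namespace Pool.Agent.H95.N4D

theorem pf_CPA : T_CPA := by
  intro y hy
  set m : ℤ := ⌊2 * y + 1 / 2⌋ with hm
  have h1 : (m : ℝ) ≤ 2 * y + 1 / 2 := Int.floor_le _
  have h2 : 2 * y + 1 / 2 < m + 1 := Int.lt_floor_add_one _
  have hz : 2 * Real.pi * y = Real.pi * (2 * y - m) + m * Real.pi := by ring
  have hc : Real.cos (2 * Real.pi * y) = (-1) ^ m * Real.cos (Real.pi * (2 * y - m)) := by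
    rw [hz, Real.cos_add_int_mul_pi]
  have hpi := Real.pi_pos
  have h0 : 0 ≤ Real.cos (Real.pi * (2 * y - m)) := by
    apply Real.cos_nonneg_of_neg_pi_div_two_le_of_le
    · nlinarith
    · nlinarith
  have hne : Real.cos (Real.pi * (2 * y - m)) ≠ 0 := by
    intro h
    rw [hc, h, mul_zero] at hy
    exact hy rfl
  have hpos : 0 < Real.cos (Real.pi * (2 * y - m)) := lt_of_le_of_ne h0 (Ne.symm hne)
  rw [hc]
  constructor
  · intro h
    by_contra hodd
    rw [Int.not_even_iff_odd] at hodd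
    rw [hodd.neg_one_zpow] at h
    linarith
  · intro h
    rw [h.neg_one_zpow]
    linarith

end Pool.Agent.H95.N4D
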