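import Pool.Agent.H6.N4D.TC

/-!
# The number of the sign changes of a rotation
-/

set_option autoImplicit false

open Finset Pool.Agent.H6.N4D

namespace Pool.Agent.H95.N4D

/-- the case of monotone steps `0` or `s`, where `s = 1` or `s = -1` -/
theorem scn_aux (a : ℕ → ℤ) (s : ℤ) (hs : s = 1 ∨ s = -1) (M : ℕ)
    (h : ∀ j, a (j + 1) - a j = 0 ∨ a (j + 1) - a j = s) :
    (((range M).filter fun j : ℕ => Odd (a (j + 1) - a j)).card : ℝ) =
      s * ((a M : ℝ) - a 0) := by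
  rw [Finset.card_filter]
  push_cast
  rw [← Finset.sum_range_sub (fun j => (a j : ℝ)) M, Finset.mul_sum]
  apply Finset.sum_congr rfl
  intro j _
  have hcast : ((a (j + 1) : ℝ) - a j) = ((a (j + 1) - a j : ℤ) : ℝ) := by push_cast; ring
  rw [hcast]
  rcases h j with h0 | h0
  · rw [h0]; simp
  · rw [h0]
    rcases hs with hs | hs <;> subst hs <;> simp

theorem pf_SCN : T_SCN := by
  intro γ μ M
  set k : ℤ := round γ with hk
  set g : ℝ := γ - k with hg
  have hgh : |g| ≤ 1 / 2 := abs_sub_round γ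
  have hnd : nd γ = |g| := rfl
  set a : ℕ → ℤ := fun j => ⌊2 * (g * j + μ) + 1 / 2⌋ with ha
  have hfl : ∀ j : ℕ, ⌊2 * (γ * (j + 1) + μ) + 1 / 2⌋ - ⌊2 * (γ * j + μ) + 1 / 2⌋ =
      a (j + 1) - a j + 2 * k := by
    intro j
    have e1 : 2 * (γ * (j + 1) + μ) + 1 / 2 =
        2 * (g * ((j + 1 : ℕ) : ℝ) + μ) + 1 / 2 + ((2 * k * (j + 1) : ℤ) : ℝ) := by
      rw [hg]; push_cast; ring
    have e2 : 2 * (γ * j + μ) + 1 / 2 =
        2 * (g * (j : ℝ) + μ) + 1 / 2 + ((2 * k * j : ℤ) : ℝ) := by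
      rw [hg]; push_cast; ring
    rw [e1, e2, Int.floor_add_intCast, Int.floor_add_intCast]
    simp only [ha]
    ring
  have hset : ((range M).filter fun j : ℕ =>
      Odd (⌊2 * (γ * (j + 1) + μ) + 1 / 2⌋ - ⌊2 * (γ * j + μ) + 1 / 2⌋)) =
      (range M).filter fun j : ℕ => Odd (a (j + 1) - a j) := by
    apply Finset.filter_congr
    intro j _
    rw [hfl j, Int.odd_add]
    simp
  rw [hset, hnd]
  -- the bounds for the floors
  have hb : ∀ j : ℕ, (a j : ℝ) ≤ 2 * (g * j + μ) + 1 / 2 ∧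
      2 * (g * j + μ) + 1 / 2 < a j + 1 := by
    intro j
    exact ⟨Int.floor_le _, Int.lt_floor_add_one _⟩
  have hstep : ∀ j : ℕ, ((a (j + 1) : ℝ) - a j) < 2 * g + 1 ∧
      2 * g - 1 < ((a (j + 1) : ℝ) - a j) := by
    intro j
    obtain ⟨h1, h2⟩ := hb j
    obtain ⟨h3, h4⟩ := hb (j + 1)
    push_cast at h3 h4
    constructor <;> linarith
  have h0 := hb 0
  have hM := hb M
  rw [abs_le] at hgh
  rcases le_or_gt 0 g with hg0 | hg0
  · have hint : ∀ j, a (j + 1) - a j = 0 ∨ a (j + 1) - a j = 1 := by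
      intro j
      obtain ⟨h1, h2⟩ := hstep j
      have h3 : ((a (j + 1) - a j : ℤ) : ℝ) < (2 : ℤ) := by push_cast; linarith
      have h4 : ((-1 : ℤ) : ℝ) < ((a (j + 1) - a j : ℤ) : ℝ) := by push_cast; linarith
      have h5 := Int.cast_lt.1 h3
      have h6 := Int.cast_lt.1 h4
      omega
    rw [scn_aux a 1 (Or.inl rfl) M hint, abs_of_nonneg hg0, abs_le]
    push_cast
    simp only [Nat.cast_zero, mul_zero, zero_add] at h0
    constructor <;> nlinarith [h0.1, h0.2, hM.1, hM.2]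
  · have hint : ∀ j, a (j + 1) - a j = 0 ∨ a (j + 1) - a j = -1 := by
      intro j
      obtain ⟨h1, h2⟩ := hstep j
      have h3 : ((a (j + 1) - a j : ℤ) : ℝ) < (1 : ℤ) := by push_cast; linarith
      have h4 : ((-2 : ℤ) : ℝ) < ((a (j + 1) - a j : ℤ) : ℝ) := by push_cast; linarith
      have h5 := Int.cast_lt.1 h3
      have h6 := Int.cast_lt.1 h4
      omega
    rw [scn_aux a (-1) (Or.inr rfl) M hint, abs_of_neg hg0, abs_le]
    push_cast
    simp only [Nat.cast_zero, mul_zero, zero_add] at h0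
    constructor <;> nlinarith [h0.1, h0.2, hM.1, hM.2]

end Pool.Agent.H95.N4D
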