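import Pool.Agent.H6.N4D.TA

/-!
# Comparison of the quadratic forms of shifts
-/

set_option autoImplicit false

open Finset Pool.Agent.H6.N4D

namespace Pool.Agent.H95.N4D

theorem summable_sq (g : ℤ → ℂ) (hg : (Function.support g).Finite) :
    Summable fun t : ℤ => ‖g t‖ ^ 2 := by
  apply summable_of_hasFiniteSupport
  refine hg.subset ?_
  intro t ht
  rw [Function.mem_support] at ht ⊢
  intro h
  apply ht
  rw [h]; simp

theorem summable_sq_shift (g : ℤ → ℂ) (hg : (Function.support g).Finite) (w : ℤ) :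
    Summable fun t : ℤ => ‖g (t + w)‖ ^ 2 :=
  (Equiv.addRight w).summable_iff.2 (summable_sq g hg)

theorem tsum_sq_shift (g : ℤ → ℂ) (w : ℤ) :
    ∑' t : ℤ, ‖g (t + w)‖ ^ 2 = ∑' t : ℤ, ‖g t‖ ^ 2 :=
  (Equiv.addRight w).tsum_eq fun t => ‖g t‖ ^ 2

theorem summable_cor (g : ℤ → ℂ) (hg : (Function.support g).Finite) (w : ℤ) :
    Summable fun t : ℤ => (g (t + w) * (starRingEnd ℂ) (g t)).re := by
  apply summable_of_hasFiniteSupport
  refine hg.subset ?_
  intro t ht
  rw [Function.mem_support] at ht ⊢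
  intro h
  apply ht
  rw [h]; simp

theorem norm_sub_sq_c (x y : ℂ) :
    ‖x - y‖ ^ 2 = ‖x‖ ^ 2 + ‖y‖ ^ 2 - 2 * (x * (starRingEnd ℂ) y).re := by
  rw [← Complex.normSq_eq_norm_sq, ← Complex.normSq_eq_norm_sq, ← Complex.normSq_eq_norm_sq,
    Complex.normSq_sub]

theorem norm_add_sq_c (x y : ℂ) :
    ‖x + y‖ ^ 2 = ‖x‖ ^ 2 + ‖y‖ ^ 2 + 2 * (x * (starRingEnd ℂ) y).re := by
  rw [← Complex.normSq_eq_norm_sq, ← Complex.normSq_eq_norm_sq, ← Complex.normSq_eq_norm_sq,
    Complex.normSq_add]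

theorem Dg_eq (g : ℤ → ℂ) (hg : (Function.support g).Finite) (w : ℤ) :
    Dg g w = 2 * ∑' t : ℤ, ‖g t‖ ^ 2 -
      2 * ∑' t : ℤ, (g (t + w) * (starRingEnd ℂ) (g t)).re := by
  unfold Dg
  simp only [norm_sub_sq_c]
  rw [Summable.tsum_sub ((summable_sq_shift g hg w).add (summable_sq g hg))
    ((summable_cor g hg w).mul_left 2),
    Summable.tsum_add (summable_sq_shift g hg w) (summable_sq g hg), tsum_sq_shift, tsum_mul_left]
  ring

theorem Dp_eq (g : ℤ → ℂ) (hg : (Function.support g).Finite) (w : ℤ) :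
    Dp g w = 2 * ∑' t : ℤ, ‖g t‖ ^ 2 +
      2 * ∑' t : ℤ, (g (t + w) * (starRingEnd ℂ) (g t)).re := by
  unfold Dp
  simp only [norm_add_sq_c]
  rw [Summable.tsum_add ((summable_sq_shift g hg w).add (summable_sq g hg))
    ((summable_cor g hg w).mul_left 2),
    Summable.tsum_add (summable_sq_shift g hg w) (summable_sq g hg), tsum_sq_shift, tsum_mul_left]
  ring

theorem pf_SPC (hPOS : T_POS) : T_SPC := by
  intro g hg ι s c l v h
  have key := hPOS g hg (Option ι) (insertNone s) (∑ i ∈ s, c i - 1)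
    (fun o => o.elim 1 (fun i => - c i)) (fun o => o.elim v l) (by
      intro ξ
      rw [Finset.sum_insertNone]
      simp only [Option.elim_none, Option.elim_some]
      have := h ξ
      simp only [mul_sub, mul_one, Finset.sum_sub_distrib] at this
      simp only [neg_mul, Finset.sum_neg_distrib]
      linarith)
  rw [Finset.sum_insertNone] at key
  simp only [Option.elim_none, Option.elim_some, neg_mul, Finset.sum_neg_distrib] at key
  rw [Dg_eq g hg v]
  have hR : ∑ i ∈ s, c i * Dg g (l i) = 2 * (∑ i ∈ s, c i) * ∑' t : ℤ, ‖g t‖ ^ 2 -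
      2 * ∑ i ∈ s, c i * ∑' t : ℤ, (g (t + l i) * (starRingEnd ℂ) (g t)).re := by
    rw [Finset.mul_sum, Finset.sum_mul, Finset.mul_sum, ← Finset.sum_sub_distrib]
    apply Finset.sum_congr rfl
    intro i _
    rw [Dg_eq g hg (l i)]
    ring
  rw [hR]
  linarith

theorem pf_SPM (hPOS : T_POS) : T_SPM := by
  intro g hg ι κ s s' c₀ c c' l l' h
  have key := hPOS g hg (ι ⊕ κ) (s.disjSum s') (∑ i ∈ s, c i + ∑ j ∈ s', c' j - c₀)
    (fun o => o.elim c (fun j => - c' j)) (fun o => o.elim l l') (by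
      intro ξ
      rw [Finset.sum_disjSum]
      simp only [Sum.elim_inl, Sum.elim_inr]
      have := h ξ
      simp only [mul_sub, mul_add, mul_one, Finset.sum_sub_distrib, Finset.sum_add_distrib] at this
      simp only [neg_mul, Finset.sum_neg_distrib]
      linarith)
  rw [Finset.sum_disjSum] at key
  simp only [Sum.elim_inl, Sum.elim_inr, neg_mul, Finset.sum_neg_distrib] at key
  have hR : ∑ i ∈ s, c i * Dp g (l i) = 2 * (∑ i ∈ s, c i) * ∑' t : ℤ, ‖g t‖ ^ 2 +
      2 * ∑ i ∈ s, c i * ∑' t : ℤ, (g (t + l i) * (starRingEnd ℂ) (g t)).re := by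
    rw [Finset.mul_sum, Finset.sum_mul, Finset.mul_sum, ← Finset.sum_add_distrib]
    apply Finset.sum_congr rfl
    intro i _
    rw [Dp_eq g hg (l i)]
    ring
  have hR' : ∑ i ∈ s', c' i * Dg g (l' i) = 2 * (∑ i ∈ s', c' i) * ∑' t : ℤ, ‖g t‖ ^ 2 -
      2 * ∑ i ∈ s', c' i * ∑' t : ℤ, (g (t + l' i) * (starRingEnd ℂ) (g t)).re := by
    rw [Finset.mul_sum, Finset.sum_mul, Finset.mul_sum, ← Finset.sum_sub_distrib]
    apply Finset.sum_congr rfl
    intro i _
    rw [Dg_eq g hg (l' i)]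
    ring
  rw [hR, hR']
  linarith

end Pool.Agent.H95.N4D
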